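import Pool.Agent.H978R3.SL.Stmts

set_option autoImplicit false

open Set Filter Topology Metric Bornology

namespace Pool.Agent.H606SL

/-- Möbius transform of the right half plane. -/
lemma mob_le {w w0 : ℂ} (h : 0 < w.re) (h0 : 0 < w0.re) :
    ‖(w - w0) / (w + (starRingEnd ℂ) w0)‖ ≤ 1 := by
  have hne : w + (starRingEnd ℂ) w0 ≠ 0 := by
    intro hh
    have := congrArg Complex.re hh
    simp at this
    linarith
  rw [norm_div, div_le_one (norm_pos_iff.mpr hne)]
  rw [← sq_le_sq₀ (norm_nonneg _) (norm_nonneg _), Complex.sq_norm, Complex.sq_norm,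
    Complex.normSq_apply, Complex.normSq_apply]
  simp
  nlinarith [mul_pos h h0]

lemma key {W : ℂ → ℂ} {c : ℂ} {R : ℝ} (hR : 0 < R) (hW : Differentiable ℂ W)
    (hpos : ∀ z ∈ ball c R, 0 < (W z).re) :
    ‖deriv W c‖ ≤ 2 * (W c).re / R ∧
      ∀ z ∈ ball c R, (W c).re * (R - ‖z - c‖) ≤ (W z).re * (R + ‖z - c‖) := by
  set w0 := W c with hw0
  have h0 : 0 < w0.re := hpos c (mem_ball_self hR)
  set g : ℂ → ℂ := fun z => (W z - w0) / (W z + (starRingEnd ℂ) w0) with hg
  have hne : ∀ z ∈ ball c R, W z + (starRingEnd ℂ) w0 ≠ 0 := by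
    intro z hz hh
    have := congrArg Complex.re hh
    have h1 := hpos z hz
    simp at this
    linarith
  have hgd : DifferentiableOn ℂ g (ball c R) := by
    apply DifferentiableOn.div
    · exact (hW.differentiableOn).sub_const _
    · exact (hW.differentiableOn).add_const _
    · exact hne
  have hgc : g c = 0 := by simp [hg, ← hw0]
  have hmaps : MapsTo g (ball c R) (closedBall (g c) 1) := by
    intro z hz
    rw [hgc, mem_closedBall_zero_iff]
    exact mob_le (hpos z hz) h0
  constructor
  · have h1 := Complex.norm_deriv_le_div_of_mapsTo_ball hgd hmaps hR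
    have hnc := hne c (mem_ball_self hR)
    have hd : HasDerivAt g ((deriv W c * (W c + (starRingEnd ℂ) w0) -
        (W c - w0) * deriv W c) / (W c + (starRingEnd ℂ) w0) ^ 2) c := by
      have hWc : HasDerivAt W (deriv W c) c := (hW c).hasDerivAt
      exact (hWc.sub_const w0).div (hWc.add_const _) hnc
    have h2 : deriv g c = deriv W c / (2 * (w0.re : ℂ)) := by
      rw [hd.deriv, ← hw0]
      have h3 : w0 + (starRingEnd ℂ) w0 = 2 * (w0.re : ℂ) := by
        rw [Complex.add_conj]; push_cast; ring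
      have h4 : (2 * (w0.re : ℂ)) ≠ 0 := by
        rw [← h3]; exact hnc
      have h5 : (w0.re : ℂ) ≠ 0 := fun h => h4 (by rw [h, mul_zero])
      rw [h3]
      field_simp
      try ring
    rw [h2, norm_div] at h1
    have h5 : ‖(2 * (w0.re : ℂ))‖ = 2 * w0.re := by
      rw [norm_mul, Complex.norm_real, Real.norm_of_nonneg h0.le]; simp
    rw [h5, div_le_div_iff₀ (by positivity) hR] at h1
    rw [le_div_iff₀ hR]
    linarith
  · intro z hz
    have h1 := Complex.dist_le_div_mul_dist_of_mapsTo_ball hgd hmaps hz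
    rw [hgc, dist_zero_right, dist_eq_norm_sub] at h1
    have hd0 : ‖z - c‖ < R := by
      have := mem_ball.mp hz
      rwa [dist_eq_norm_sub] at this
    set d := ‖z - c‖ with hd
    have hdn : 0 ≤ d := norm_nonneg _
    have hzp := hpos z hz
    have h2 : ‖W z - w0‖ * R ≤ d * ‖W z + (starRingEnd ℂ) w0‖ := by
      simp only [hg] at h1
      rw [norm_div, div_le_iff₀ (norm_pos_iff.mpr (hne z hz))] at h1
      have : 1 / R * d * ‖W z + (starRingEnd ℂ) w0‖ * R = d * ‖W z + (starRingEnd ℂ) w0‖ := by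
        field_simp
      nlinarith [mul_le_mul_of_nonneg_right h1 hR.le]
    have h3 : (‖W z - w0‖ * R) ^ 2 ≤ (d * ‖W z + (starRingEnd ℂ) w0‖) ^ 2 := by
      apply pow_le_pow_left₀ (by positivity) h2
    have e1 : ‖W z - w0‖ ^ 2 = ((W z).re - w0.re) ^ 2 + ((W z).im - w0.im) ^ 2 := by
      rw [Complex.sq_norm, Complex.normSq_apply]; simp; ring
    have e2 : ‖W z + (starRingEnd ℂ) w0‖ ^ 2 =
        ((W z).re + w0.re) ^ 2 + ((W z).im - w0.im) ^ 2 := by
      rw [Complex.sq_norm, Complex.normSq_apply]; simp; ring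
    rw [mul_pow, mul_pow, e1, e2] at h3
    -- now real inequality
    set a := (W z).re
    set a0 := w0.re
    set b := (W z).im - w0.im
    have h5 : ((a0 - a) * R) ^ 2 ≤ (d * (a + a0)) ^ 2 := by
      have h6 : b ^ 2 * d ^ 2 ≤ b ^ 2 * R ^ 2 := by
        apply mul_le_mul_of_nonneg_left _ (sq_nonneg b)
        exact pow_le_pow_left₀ hdn hd0.le 2
      nlinarith
    have h8 := abs_le_of_sq_le_sq h5 (mul_nonneg hdn (by linarith))
    have h9 := (le_abs_self _).trans h8
    nlinarith

/-- the combined estimate -/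
lemma key2 {W : ℂ → ℂ} {c z : ℂ} {R : ℝ} (hW : Differentiable ℂ W)
    (hpos : ∀ z ∈ ball c R, 0 < (W z).re) (hd : ‖z - c‖ + 1 ≤ R) :
    (W c).re ≤ 2 * R * (W z).re ∧ ‖deriv W c‖ ≤ 4 * (W z).re := by
  have hdn : 0 ≤ ‖z - c‖ := norm_nonneg _
  have hR : 0 < R := by linarith
  obtain ⟨h1, h2⟩ := key hR hW hpos
  have hz : z ∈ ball c R := by
    rw [mem_ball, dist_eq_norm_sub]; linarith
  have h3 := h2 z hz
  have hc := hpos c (mem_ball_self hR)
  have hzz := hpos z hz
  have h4 : (W c).re ≤ 2 * R * (W z).re := by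
    nlinarith
  refine ⟨h4, h1.trans ?_⟩
  rw [div_le_iff₀ hR]
  nlinarith

open Complex in
theorem taskB3 : Pool.Agent.H978R3.SL.TaskB3 := by
  intro v s0 hv ⟨C1, h1⟩ h2 h3 ⟨A, h4⟩
  -- nearest point
  have hnear : ∀ s : ℂ, ∃ k : ℤ, ‖(s0 + 2 * (Real.pi : ℂ) * Complex.I * k) - s‖ ≤
      |s.re - s0.re| + Real.pi := by
    intro s
    refine ⟨round ((s.im - s0.im) / (2 * Real.pi)), ?_⟩
    have hpi := Real.pi_pos
    refine (Complex.norm_le_abs_re_add_abs_im _).trans ?_
    have e1 : ((s0 + 2 * (Real.pi : ℂ) * Complex.I *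
        (round ((s.im - s0.im) / (2 * Real.pi)) : ℤ)) - s).re = s0.re - s.re := by
      simp
    have e2 : ((s0 + 2 * (Real.pi : ℂ) * Complex.I *
        (round ((s.im - s0.im) / (2 * Real.pi)) : ℤ)) - s).im =
        s0.im + 2 * Real.pi * (round ((s.im - s0.im) / (2 * Real.pi)) : ℤ) - s.im := by
      simp
    rw [e1, e2]
    have h5 := abs_sub_round ((s.im - s0.im) / (2 * Real.pi))
    have h6 : |s0.im + 2 * Real.pi * (round ((s.im - s0.im) / (2 * Real.pi)) : ℤ) - s.im| ≤
        Real.pi := by
      have h7 : s0.im + 2 * Real.pi * (round ((s.im - s0.im) / (2 * Real.pi)) : ℤ) - s.im =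
        -(2 * Real.pi) * ((s.im - s0.im) / (2 * Real.pi) -
          (round ((s.im - s0.im) / (2 * Real.pi)) : ℤ)) := by
        field_simp
        ring
      rw [h7, abs_mul, abs_neg, abs_of_pos (by positivity : (0:ℝ) < 2 * Real.pi)]
      nlinarith
    rw [abs_sub_comm s0.re s.re]
    linarith
  -- upper bound
  have hub : ∀ B : ℝ, ∃ C : ℝ, 0 < C ∧ ∀ s : ℂ, -B ≤ s.re → (v s).re ≤ s.re + C := by
    intro B
    obtain ⟨C2, h5⟩ := h2 |B|
    refine ⟨|C1| + |C2| + |B| + 1, by positivity, ?_⟩
    intro s hs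
    by_cases h0 : 0 ≤ s.re
    · have := h1 s h0
      linarith [le_abs_self C1, abs_nonneg C2, abs_nonneg B]
    · push Not at h0
      have h6 : |s.re| ≤ |B| := by
        rw [abs_of_neg h0]
        linarith [le_abs_self B]
      have := h5 s h6
      have h7 : -|B| ≤ s.re := by linarith [le_abs_self B]
      linarith [le_abs_self C2, abs_nonneg C1]
  -- lower bound on strips
  have hlow : ∀ B : ℝ, 0 ≤ B → ∃ C : ℝ, ∀ s : ℂ, |s.re| ≤ B → -C ≤ (v s).re := by
    intro B hB
    set R : ℝ := B + |s0.re| + Real.pi + 1 with hR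
    obtain ⟨C2, h5⟩ := h2 (B + R)
    refine ⟨2 * R * (|C2| + 1), ?_⟩
    intro s hs
    obtain ⟨k, hk⟩ := hnear s
    have hpi := Real.pi_pos
    have hd : ‖(s0 + 2 * (Real.pi : ℂ) * Complex.I * k) - s‖ + 1 ≤ R := by
      have : |s.re - s0.re| ≤ B + |s0.re| := (abs_sub _ _).trans (by linarith)
      linarith
    have hWd : Differentiable ℂ (fun z => ((|C2| + 1 : ℝ) : ℂ) - v z) :=
      (differentiable_const _).sub hv
    have hpos : ∀ z ∈ ball s R, 0 < ((fun z => ((|C2| + 1 : ℝ) : ℂ) - v z) z).re := by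
      intro z hz
      have h6 : |z.re| ≤ B + R := by
        have h7 : |z.re - s.re| < R := by
          have h8 := mem_ball.mp hz
          rw [dist_eq_norm_sub] at h8
          have h9 := Complex.abs_re_le_norm (z - s)
          rw [Complex.sub_re] at h9
          linarith
        have h10 : |z.re| ≤ |z.re - s.re| + |s.re| := by
          have := abs_add_le (z.re - s.re) s.re
          simpa using this
        linarith
      have := h5 z h6
      simp only [Complex.sub_re, Complex.ofReal_re]
      linarith [le_abs_self C2]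
    have h11 := (key2 hWd hpos hd).1
    simp only [Complex.sub_re, Complex.ofReal_re] at h11
    rw [h3 k] at h11
    linarith [abs_nonneg C2]
  -- lower bound on half planes
  have hlb : ∀ B : ℝ, ∃ C : ℝ, 0 < C ∧ ∀ s : ℂ, s.re ≤ B → s.re - C ≤ (v s).re := by
    intro B
    obtain ⟨C2, h5⟩ := hlow (|A| + |B|) (by positivity)
    refine ⟨|C2| + |A| + |B| + 1, by positivity, ?_⟩
    intro s hs
    by_cases h0 : s.re ≤ -A
    · have := h4 s h0
      linarith [abs_nonneg C2, abs_nonneg A, abs_nonneg B]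
    · push Not at h0
      have h6 : |s.re| ≤ |A| + |B| := by
        rw [abs_le]
        constructor
        · linarith [le_abs_self A, abs_nonneg B]
        · linarith [le_abs_self B, abs_nonneg A]
      have := h5 s h6
      have h7 : s.re ≤ |A| + |B| := (abs_le.mp h6).2
      linarith [le_abs_self C2]
  have hpi := Real.pi_pos
  obtain ⟨Cu, hCu, hu⟩ := hub (-(s0.re - Real.pi - 1))
  obtain ⟨Cl, hCl, hl⟩ := hlb (s0.re + Real.pi + 1)
  -- bounded derivative
  have hbd : ∃ M : ℝ, ∀ s : ℂ, ‖deriv v s‖ ≤ M := by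
    refine ⟨1 + |4 * (s0.re + (Cu + 1))| + |4 * (-s0.re + (Cl + 1))|, ?_⟩
    intro s
    obtain ⟨k, hk⟩ := hnear s
    rcases le_total s0.re s.re with hs | hs
    · have hWd : Differentiable ℂ (fun z : ℂ => z + ((Cu + 1 : ℝ) : ℂ) - v z) :=
        ((differentiable_id).add_const _).sub hv
      have hpos : ∀ z ∈ ball s (s.re - s0.re + Real.pi + 1),
          0 < ((fun z : ℂ => z + ((Cu + 1 : ℝ) : ℂ) - v z) z).re := by
        intro z hz
        have h8 := mem_ball.mp hz
        rw [dist_eq_norm_sub] at h8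
        have h9 := Complex.abs_re_le_norm (z - s)
        rw [Complex.sub_re] at h9
        have h10 := neg_abs_le (z.re - s.re)
        have h11 := hu z (by linarith)
        simp only [Complex.sub_re, Complex.add_re, Complex.ofReal_re]
        linarith
      have hd : ‖(s0 + 2 * (Real.pi : ℂ) * Complex.I * k) - s‖ + 1 ≤
          s.re - s0.re + Real.pi + 1 := by
        rw [abs_of_nonneg (by linarith)] at hk
        linarith
      have h12 := (key2 hWd hpos hd).2
      have h13 : deriv (fun z : ℂ => z + ((Cu + 1 : ℝ) : ℂ) - v z) s = 1 - deriv v s := by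
        have : HasDerivAt (fun z : ℂ => z + ((Cu + 1 : ℝ) : ℂ) - v z) (1 - deriv v s) s :=
          ((hasDerivAt_id s).add_const _).sub (hv s).hasDerivAt
        exact this.deriv
      rw [h13] at h12
      simp only [Complex.sub_re, Complex.add_re, Complex.ofReal_re] at h12
      have h14 := h3 k
      rw [h14] at h12
      have h15 : (s0 + 2 * (Real.pi : ℂ) * Complex.I * k).re = s0.re := by simp
      simp only [Complex.add_re] at h15
      rw [h15] at h12
      have h16 : ‖deriv v s‖ ≤ ‖(1:ℂ)‖ + ‖1 - deriv v s‖ := by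
        have := norm_sub_le (1:ℂ) (1 - deriv v s)
        simpa using this
      rw [norm_one] at h16
      have h17 := le_abs_self (4 * (s0.re + (Cu + 1)))
      have h18 := abs_nonneg (4 * (-s0.re + (Cl + 1)))
      linarith
    · have hWd : Differentiable ℂ (fun z : ℂ => v z - z + ((Cl + 1 : ℝ) : ℂ)) :=
        ((hv).sub differentiable_id).add_const _
      have hpos : ∀ z ∈ ball s (s0.re - s.re + Real.pi + 1),
          0 < ((fun z : ℂ => v z - z + ((Cl + 1 : ℝ) : ℂ)) z).re := by
        intro z hz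
        have h8 := mem_ball.mp hz
        rw [dist_eq_norm_sub] at h8
        have h9 := Complex.abs_re_le_norm (z - s)
        rw [Complex.sub_re] at h9
        have h10 := le_abs_self (z.re - s.re)
        have h11 := hl z (by linarith)
        simp only [Complex.sub_re, Complex.add_re, Complex.ofReal_re]
        linarith
      have hd : ‖(s0 + 2 * (Real.pi : ℂ) * Complex.I * k) - s‖ + 1 ≤
          s0.re - s.re + Real.pi + 1 := by
        rw [abs_of_nonpos (by linarith)] at hk
        linarith
      have h12 := (key2 hWd hpos hd).2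
      have h13 : deriv (fun z : ℂ => v z - z + ((Cl + 1 : ℝ) : ℂ)) s = deriv v s - 1 := by
        have : HasDerivAt (fun z : ℂ => v z - z + ((Cl + 1 : ℝ) : ℂ)) (deriv v s - 1) s :=
          ((hv s).hasDerivAt.sub (hasDerivAt_id s)).add_const _
        exact this.deriv
      rw [h13] at h12
      simp only [Complex.sub_re, Complex.add_re, Complex.ofReal_re] at h12
      have h14 := h3 k
      rw [h14] at h12
      have h15 : (s0 + 2 * (Real.pi : ℂ) * Complex.I * k).re = s0.re := by simp
      simp only [Complex.add_re] at h15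
      rw [h15] at h12
      have h16 : ‖deriv v s‖ ≤ ‖(1:ℂ)‖ + ‖deriv v s - 1‖ := by
        have := norm_add_le (1:ℂ) (deriv v s - 1)
        simpa using this
      rw [norm_one] at h16
      have h17 := le_abs_self (4 * (-s0.re + (Cl + 1)))
      have h18 := abs_nonneg (4 * (s0.re + (Cu + 1)))
      linarith
  obtain ⟨M, hM⟩ := hbd
  refine ⟨deriv v 0, fun s => ?_⟩
  have hdd : Differentiable ℂ (deriv v) := fun z => ((hv.analyticAt z).deriv).differentiableAt
  apply hdd.apply_eq_apply_of_bounded
  rw [isBounded_iff_forall_norm_le]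
  exact ⟨M, by rintro _ ⟨z, rfl⟩; exact hM z⟩

end Pool.Agent.H606SL
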